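import Pool.Agent.Q141.Klam.Main

/-!
# MP_7f2f72_gt: a convex curve whose perimeter is bisected by all lines through `O` is symmetric

`K` is a compact convex set with nonempty interior in the Euclidean plane, `C = frontier K`; lengths
are one-dimensional Hausdorff measures. If for every line `{x | ⟪x - O, n⟫ = 0}` through `O` the two
open half-planes it bounds contain parts of `C` of equal length, then the point reflection
`x ↦ 2 O - x` maps `C` onto itself.

Proof: `O` is interior to `K`. By subtraction opposite sectors at `O` cut off parts of `C` of equal
length. Write `C = {N = 1}` with the gauge `N` of `K - O`. At a direction `e` where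
`N (-e) / N e = k` is largest, compare one-sided speeds of the two curves `(e + t f) / N (e + t f)`
and `(e + t f) / N (-(e + t f))`: if `k > 1` then the convex function `t ↦ N (-(e + t f))` has
negative one-sided derivatives in both directions at `0`, which is impossible.
-/

open MeasureTheory Set
open scoped MeasureTheory InnerProductSpace

namespace Pool.Agent.Results.MP_7f2f72_gt.Klamkin

/-- `C` is the boundary of a compact convex set with nonempty interior in the plane. -/
def IsConvexClosedCurve (C : Set (EuclideanSpace ℝ (Fin 2))) : Prop :=
  ∃ K : Set (EuclideanSpace ℝ (Fin 2)), IsCompact K ∧ Convex ℝ K ∧ (interior K).Nonempty ∧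
    C = frontier K

/-- Every line through `O` bisects the length of `C`: for every normal vector `n ≠ 0` the parts of
`C` in the two open half-planes bounded by the line `{x | ⟪x - O, n⟫ = 0}` have equal length
(one-dimensional Hausdorff measure). -/
def EveryLineBisects (C : Set (EuclideanSpace ℝ (Fin 2))) (O : EuclideanSpace ℝ (Fin 2)) : Prop :=
  ∀ n : EuclideanSpace ℝ (Fin 2), n ≠ 0 →
    μH[1] (C ∩ {x | 0 < ⟪x - O, n⟫_ℝ}) = μH[1] (C ∩ {x | ⟪x - O, n⟫_ℝ < 0})

/-- `C` is centrally symmetric with respect to `O`: the point reflection maps `C` onto itself. -/
def CentrallySymmetric (C : Set (EuclideanSpace ℝ (Fin 2))) (O : EuclideanSpace ℝ (Fin 2)) : Prop :=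
  (fun x => (2 : ℝ) • O - x) '' C = C

/-- **Klamkin's question**: a convex closed curve whose perimeter is bisected by every line through
`O` is centrally symmetric with respect to `O`. -/
theorem result (C : Set (EuclideanSpace ℝ (Fin 2))) (hC : IsConvexClosedCurve C)
    (O : EuclideanSpace ℝ (Fin 2)) (h : EveryLineBisects C O) : CentrallySymmetric C O := by
  obtain ⟨K, hK, hv, hi, rfl⟩ := hC
  exact Pool.Agent.Q141.Klam.main hK hv hi O h

end Pool.Agent.Results.MP_7f2f72_gt.Klamkin
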